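import Pool.Agent.Q185.OC.ProdChart

/-!
# MP_b38318_gt: a Riemannian product with orthogonal coordinates whose factor has none
-/

namespace Pool.Agent.Results.MP_b38318_gt.ProductWithLine

open Pool.Agent.Q185.OC

/-- **Counterexample.**  `M₁` is the cube `|z_i| < 1/4` in `ℝ⁴` with the Riemannian metric
`∑ f_i dz_i² - df²`, where `f(z) = (z₀ + z₁ + z₂ + z₃) (1/5 + z₀ z₁ z₂ z₃)` and `f_i = ∂f/∂z_i`;
`M₂` is the real line.  The Riemannian product `M₁ × M₂` admits orthogonal coordinates, but `M₁`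
does not. -/
theorem result :
    Convex ℝ M₁.U ∧ (0 : Fin 4 → ℝ) ∈ M₁.U ∧ M₂.U = Set.univ ∧
      (M₁.prod M₂).AdmitsOrthogonalCoordinates ∧ ¬ M₁.AdmitsOrthogonalCoordinates :=
  ⟨convex_M₁, by intro i; simp, rfl, prod_orth, no_orth⟩

end Pool.Agent.Results.MP_b38318_gt.ProductWithLine
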